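import Pool.Agent.KT3.StmtsD

/-!
# Squad KT3, row SMS (helper67): the small vectors form a subspace
-/

set_option autoImplicit false

namespace Pool.Agent.KT3.H67

open Pool.Agent.PFS Pool.Agent.PFJ Pool.Agent.NBT Pool.Agent.KT3
open Pool.Agent.PCO (Sml)

theorem sml_zero {n : ℕ} {C : Set (V n)} (h : PCone C) {e : V n} (he : e ∈ closure C) :
    Sml C e 0 := by
  intro x hx τ hτ
  have h1 : (1 : ℝ) • e + τ • x ∈ closure C :=
    h.cl_add (h.cl_smul_pos he one_pos) (h.cl_smul_pos (subset_closure hx) hτ)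
  exact ⟨1, one_pos, by rw [sub_zero]; exact h1, by rw [add_zero]; exact h1⟩

theorem sml_add {n : ℕ} {C : Set (V n)} (h : PCone C) {e y z : V n} (hy : Sml C e y)
    (hz : Sml C e z) : Sml C e (y + z) := by
  intro x hx τ hτ
  obtain ⟨k1, p1, a1, b1⟩ := hy x hx (τ / 2) (by linarith)
  obtain ⟨k2, p2, a2, b2⟩ := hz x hx (τ / 2) (by linarith)
  refine ⟨k1 + k2, by linarith, ?_, ?_⟩
  · have e1 : (k1 + k2) • e + τ • x - (y + z) =
        (k1 • e + (τ / 2) • x - y) + (k2 • e + (τ / 2) • x - z) := by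
      have : τ • x = (τ / 2) • x + (τ / 2) • x := by rw [← add_smul]; congr 1; ring
      rw [this, add_smul]
      abel
    rw [e1]
    exact h.cl_add a1 a2
  · have e1 : (k1 + k2) • e + τ • x + (y + z) =
        (k1 • e + (τ / 2) • x + y) + (k2 • e + (τ / 2) • x + z) := by
      have : τ • x = (τ / 2) • x + (τ / 2) • x := by rw [← add_smul]; congr 1; ring
      rw [this, add_smul]
      abel
    rw [e1]
    exact h.cl_add b1 b2

theorem sml_neg {n : ℕ} {C : Set (V n)} {e y : V n} (hy : Sml C e y) : Sml C e (-y) := by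
  intro x hx τ hτ
  obtain ⟨k1, p1, a1, b1⟩ := hy x hx τ hτ
  exact ⟨k1, p1, by rw [sub_neg_eq_add]; exact b1, by rw [← sub_eq_add_neg]; exact a1⟩

theorem sml_pos {n : ℕ} {C : Set (V n)} (h : PCone C) {e y : V n} (hy : Sml C e y) {a : ℝ}
    (ha : 0 < a) : Sml C e (a • y) := by
  intro x hx τ hτ
  obtain ⟨k1, p1, a1, b1⟩ := hy x hx (τ / a) (div_pos hτ ha)
  have e0 : a • (τ / a) • x = τ • x := by
    rw [smul_smul]
    congr 1
    field_simp
  refine ⟨a * k1, mul_pos ha p1, ?_, ?_⟩
  · have e1 : (a * k1) • e + τ • x - a • y = a • (k1 • e + (τ / a) • x - y) := by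
      rw [smul_sub, smul_add, e0, smul_smul]
    rw [e1]
    exact h.cl_smul_pos a1 ha
  · have e1 : (a * k1) • e + τ • x + a • y = a • (k1 • e + (τ / a) • x + y) := by
      rw [smul_add, smul_add, e0, smul_smul]
    rw [e1]
    exact h.cl_smul_pos b1 ha

theorem sms : SmsStmt := by
  intro n C h e he
  refine ⟨{ carrier := {y | Sml C e y}, add_mem' := ?_, zero_mem' := ?_, smul_mem' := ?_ },
    fun y => Iff.rfl⟩
  · intro y z hy hz
    exact sml_add h hy hz
  · exact sml_zero h he
  · intro a y hy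
    rcases lt_trichotomy a 0 with ha | ha | ha
    · have h1 := sml_neg (sml_pos h hy (neg_pos.2 ha))
      rw [neg_smul, neg_neg] at h1
      exact h1
    · rw [ha, zero_smul]
      exact sml_zero h he
    · exact sml_pos h hy ha

end Pool.Agent.KT3.H67
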